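import Pool.Agent.H46.EXC.Stmts

/-!
# EXC, module DIT: few tuples with a given quotient of the radicals
-/

set_option autoImplicit false

namespace Pool.EXC

open Finset Pool.Agent.H98.ABCR

namespace Dit

lemma rpos (n : ℕ) : 0 < rad n :=
  Finset.prod_pos fun _ hp => (Nat.prime_of_mem_primeFactors hp).pos

lemma prime_dvd_rad {n p : ℕ} (hp : p ∈ n.primeFactors) : p ∣ rad n :=
  Finset.dvd_prod_of_mem _ hp

open Classical in
/-- the tuples with a given product of radicals -/
noncomputable def Bm (A : Finset ℕ) (s m : ℕ) : Finset (Fin s → ℕ) :=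
  (Fintype.piFinset fun _ : Fin s => A).filter (fun y => ∏ j, rad (y j) = m)

/-- few tuples with a given product of radicals -/
lemma Bm_card {A : Finset ℕ} {E : Finset ℕ} (hA : ∀ n ∈ A, 0 < n ∧
    ∀ p ∈ n.primeFactors, n.factorization p ∈ E) (s m : ℕ) (hm : 0 < m) :
    (Bm A s m).card ≤ ((E.card + 1) ^ om m) ^ s := by
  classical
  have h := Finset.card_le_card_of_injOn (s := Bm A s m)
    (t := Fintype.piFinset fun _ : Fin s => Fintype.piFinset fun _ : ↥m.primeFactors => insert 0 E)
    (fun y j p => (y j).factorization p.1) ?_ ?_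
  · refine h.trans ?_
    rw [Fintype.card_piFinset_const, Fintype.card_piFinset, prod_const, card_univ,
      Fintype.card_coe]
    have h1 : (insert 0 E).card ≤ E.card + 1 := card_insert_le _ _
    have h2 : m.primeFactors.card = om m := rfl
    rw [h2]
    gcongr
  · intro y hy
    rw [mem_coe, Bm, mem_filter, Fintype.mem_piFinset] at hy
    rw [mem_coe, Fintype.mem_piFinset]
    intro j
    rw [Fintype.mem_piFinset]
    intro p
    rw [mem_insert]
    by_cases hp : p.1 ∈ (y j).primeFactors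
    · exact Or.inr ((hA _ (hy.1 j)).2 _ hp)
    · left
      rw [← Nat.support_factorization, Finsupp.notMem_support_iff] at hp
      exact hp
  · intro y hy y' hy' h
    rw [mem_coe, Bm, mem_filter, Fintype.mem_piFinset] at hy hy'
    funext j
    refine Nat.eq_of_factorization_eq (hA _ (hy.1 j)).1.ne' (hA _ (hy'.1 j)).1.ne' fun p => ?_
    by_cases hp : p ∈ m.primeFactors
    · exact congrFun (congrFun h j) ⟨p, hp⟩
    · have key : ∀ z : Fin s → ℕ, (∏ j, rad (z j) = m) → (z j).factorization p = 0 := by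
        intro z hz
        by_contra hne
        have hpz : p ∈ (z j).primeFactors := by
          rw [← Nat.support_factorization, Finsupp.mem_support_iff]
          exact hne
        refine hp ?_
        rw [Nat.mem_primeFactors]
        refine ⟨Nat.prime_of_mem_primeFactors hpz, ?_, hm.ne'⟩
        rw [← hz]
        exact (prime_dvd_rad hpz).trans (Finset.dvd_prod_of_mem _ (mem_univ j))
      rw [key y hy.2, key y' hy'.2]

end Dit

open Dit in
/-- **DIT**: few tuples with given quotient. -/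
theorem dit_thm (hOMB : Pool.FEX.S_OMB) : S_DIT := by
  classical
  intro s L ε hε
  obtain ⟨C, hC, hom⟩ := hOMB (((L : ℝ) + 1) ^ s) (ε / 6)
    (one_le_pow₀ (by
      have : (0 : ℝ) ≤ L := Nat.cast_nonneg L
      linarith)) (by positivity)
  refine ⟨C, hC, ?_⟩
  intro X Z q E ρ hX hZ hZX hE
  have hX0 : 0 < X := by linarith
  set A := Cls q Z E with hA
  have hAm : ∀ n ∈ A, 0 < n ∧ (rad n : ℝ) ≤ Z ∧ ∀ p ∈ n.primeFactors, n.factorization p ∈ E := by
    intro n hn
    rw [hA, Cls, mem_filter] at hn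
    exact ⟨hn.2.1, hn.2.2.2.1, hn.2.2.2.2⟩
  set S := ((Fintype.piFinset fun _ : Fin s => A) ×ˢ (Fintype.piFinset fun _ : Fin s => A)).filter
    (fun w => wq w = ρ) with hS
  have hbound : ∀ m : ℕ, 0 < m → (m : ℝ) ≤ X ^ 6 → ((Bm A s m).card : ℝ) ≤ C * X ^ ε := by
    intro m hm hmX
    have h1 := Bm_card (A := A) (E := E) (fun n hn => ⟨(hAm n hn).1, (hAm n hn).2.2⟩) s m hm
    have h2 : (((((E.card + 1) ^ om m) ^ s : ℕ)) : ℝ) ≤ (((L : ℝ) + 1) ^ s) ^ (om m + 1) := by
      push_cast
      have h3 : (E.card : ℝ) ≤ L := by exact_mod_cast hE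
      calc (((E.card : ℝ) + 1) ^ om m) ^ s = (((E.card : ℝ) + 1) ^ s) ^ om m := by
            rw [← pow_mul, ← pow_mul, mul_comm]
        _ ≤ (((L : ℝ) + 1) ^ s) ^ om m := by gcongr
        _ ≤ (((L : ℝ) + 1) ^ s) ^ (om m + 1) := by
            refine pow_le_pow_right₀ (one_le_pow₀ ?_) (Nat.le_succ _)
            have : (0 : ℝ) ≤ L := Nat.cast_nonneg L
            linarith
    have h4 : (((Bm A s m).card : ℕ) : ℝ) ≤ (((((E.card + 1) ^ om m) ^ s : ℕ)) : ℝ) := by
      exact_mod_cast h1
    refine h4.trans (h2.trans ((hom m hm).trans ?_))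
    refine mul_le_mul_of_nonneg_left ?_ (by linarith)
    calc (m : ℝ) ^ (ε / 6) ≤ (X ^ 6) ^ (ε / 6) := by gcongr
      _ = X ^ ε := by
          rw [← Real.rpow_natCast, ← Real.rpow_mul hX0.le]
          congr 1
          push_cast
          ring
  have hfib : ∀ a ∈ S.image Prod.fst, (S.filter (fun w => w.1 = a)).card ≤ ⌊C * X ^ ε⌋₊ := by
    intro a ha
    rw [mem_image] at ha
    obtain ⟨w0, hw0, rfl⟩ := ha
    rw [hS, mem_filter, mem_product, Fintype.mem_piFinset, Fintype.mem_piFinset] at hw0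
    set m : ℕ := ∏ j, rad (w0.2 j) with hm
    have hm0 : 0 < m := Finset.prod_pos fun j _ => rpos _
    have hmX : (m : ℝ) ≤ X ^ 6 := by
      rw [hm]
      push_cast
      calc ∏ j, (rad (w0.2 j) : ℝ) ≤ ∏ _j : Fin s, Z :=
            Finset.prod_le_prod (fun j _ => by positivity) (fun j _ => (hAm _ (hw0.1.2 j)).2.1)
        _ = Z ^ s := by simp
        _ ≤ X ^ 6 := hZX
    refine Nat.le_floor ?_
    refine le_trans ?_ (hbound m hm0 hmX)
    have hle : (S.filter (fun w => w.1 = w0.1)).card ≤ (Bm A s m).card := by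
      refine Finset.card_le_card_of_injOn Prod.snd ?_ ?_
      · intro w hw
        rw [mem_coe, mem_filter, hS, mem_filter, mem_product, Fintype.mem_piFinset,
          Fintype.mem_piFinset] at hw
        rw [mem_coe, Bm, mem_filter, Fintype.mem_piFinset]
        refine ⟨hw.1.1.2, ?_⟩
        have e1 : wq w = wq w0 := hw.1.2.trans hw0.2.symm
        unfold wq at e1
        rw [hw.2] at e1
        have p0 : (0 : ℚ) < ∏ j, (rad (w0.1 j) : ℚ) :=
          Finset.prod_pos fun j _ => by exact_mod_cast rpos _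
        have p1 : (0 : ℚ) < ∏ j, (rad (w.2 j) : ℚ) :=
          Finset.prod_pos fun j _ => by exact_mod_cast rpos _
        have p2 : (0 : ℚ) < ∏ j, (rad (w0.2 j) : ℚ) :=
          Finset.prod_pos fun j _ => by exact_mod_cast rpos _
        rw [div_eq_div_iff p1.ne' p2.ne'] at e1
        have e2 : ∏ j, (rad (w0.2 j) : ℚ) = ∏ j, (rad (w.2 j) : ℚ) := mul_left_cancel₀ p0.ne' e1
        have e3 : ((∏ j, rad (w0.2 j) : ℕ) : ℚ) = ((∏ j, rad (w.2 j) : ℕ) : ℚ) := by
          push_cast
          exact e2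
        rw [hm]
        exact_mod_cast e3.symm
      · intro w hw w' hw' h
        rw [mem_coe, mem_filter] at hw hw'
        exact Prod.ext (hw.2.trans hw'.2.symm) h
    exact_mod_cast hle
  have hmain := Finset.card_le_mul_card_image (f := Prod.fst) S ⌊C * X ^ ε⌋₊ hfib
  have himg : (S.image Prod.fst).card ≤ A.card ^ s := by
    have hsub : S.image Prod.fst ⊆ Fintype.piFinset fun _ : Fin s => A := by
      intro a ha
      rw [mem_image] at ha
      obtain ⟨w, hw, rfl⟩ := ha
      rw [hS, mem_filter, mem_product] at hw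
      exact hw.1.1
    refine (card_le_card hsub).trans (le_of_eq ?_)
    rw [Fintype.card_piFinset_const]
  have h1 : (S.card : ℝ) ≤ (⌊C * X ^ ε⌋₊ : ℝ) * (S.image Prod.fst).card := by exact_mod_cast hmain
  have h2 : ((S.image Prod.fst).card : ℝ) ≤ (A.card : ℝ) ^ s := by exact_mod_cast himg
  have h3 : (⌊C * X ^ ε⌋₊ : ℝ) ≤ C * X ^ ε := Nat.floor_le (by positivity)
  calc (S.card : ℝ) ≤ (⌊C * X ^ ε⌋₊ : ℝ) * (S.image Prod.fst).card := h1
    _ ≤ (C * X ^ ε) * (A.card : ℝ) ^ s := by gcongr

end Pool.EXC
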