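import Pool.Agent.H46.EXC.Stmts

/-!
# EXC, module SPL: the energy of a product of two classes
-/

set_option autoImplicit false

namespace Pool.EXC

open Finset

namespace Spl

variable {G : Type} [CommGroup G]

lemma append_inj {α : Type} {m n : ℕ} {a a' : Fin m → α} {b b' : Fin n → α}
    (h : Fin.append a b = Fin.append a' b') : a = a' ∧ b = b' := by
  constructor
  · funext j
    have := congrFun h (Fin.castAdd n j)
    simpa using this
  · funext j
    have := congrFun h (Fin.natAdd m j)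
    simpa using this

lemma mem_EnS {α : Type} {R : ℝ → Set G} {A : Finset α} {f : α → G} {s : ℕ} {r : ℝ}
    {w : (Fin s → α) × (Fin s → α)} :
    w ∈ EnS R A f s r ↔ (∀ j, w.1 j ∈ A) ∧ (∀ j, w.2 j ∈ A) ∧
      (∏ j, f (w.1 j)) * (∏ j, f (w.2 j))⁻¹ ∈ R r := by
  classical
  unfold EnS
  rw [mem_filter, mem_product, Fintype.mem_piFinset, Fintype.mem_piFinset, and_assoc]

open Classical in
/-- the pairs of pairs of `s`-tuples, as pairs of `2s`-tuples -/
noncomputable def PP {α : Type} (R : ℝ → Set G) (A : Finset α) (f : α → G) (s : ℕ) (r : ℝ) :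
    Finset (((Fin s → α) × (Fin s → α)) × ((Fin s → α) × (Fin s → α))) :=
  (((Fintype.piFinset fun _ : Fin s => A) ×ˢ (Fintype.piFinset fun _ : Fin s => A)) ×ˢ
    ((Fintype.piFinset fun _ : Fin s => A) ×ˢ (Fintype.piFinset fun _ : Fin s => A))).filter
    (fun w => (Fin.append w.1.1 w.2.2, Fin.append w.1.2 w.2.1) ∈ EnS R A f (s + s) (r + r))

lemma PP_card {α : Type} (R : ℝ → Set G) (A : Finset α) (f : α → G) (s : ℕ) (r : ℝ) :
    (PP R A f s r).card ≤ En R A f (2 * s) (2 * r) := by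
  rw [two_mul, two_mul]
  unfold En
  refine Finset.card_le_card_of_injOn
    (fun w => (Fin.append w.1.1 w.2.2, Fin.append w.1.2 w.2.1)) ?_ ?_
  · intro w hw
    classical
    exact (mem_filter.mp (mem_coe.mp hw)).2
  · intro w _ w' _ h
    simp only [Prod.mk.injEq] at h
    obtain ⟨h1, h2⟩ := append_inj h.1
    obtain ⟨h3, h4⟩ := append_inj h.2
    exact Prod.ext (Prod.ext h1 h3) (Prod.ext h4 h2)

/-- two edges with a common neighbour -/
lemma mem_PP {α : Type} {R : ℝ → Set G} (hR : Sys R) {A : Finset α} {f : α → G} {s : ℕ} {r : ℝ}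
    {y y' : (Fin s → α) × (Fin s → α)} (hy1 : ∀ j, y.1 j ∈ A) (hy2 : ∀ j, y.2 j ∈ A)
    (hy1' : ∀ j, y'.1 j ∈ A) (hy2' : ∀ j, y'.2 j ∈ A) (u : G)
    (h : (∏ j, f (y.1 j)) * (∏ j, f (y.2 j))⁻¹ * u ∈ R r)
    (h' : (∏ j, f (y'.1 j)) * (∏ j, f (y'.2 j))⁻¹ * u ∈ R r) : (y, y') ∈ PP R A f s r := by
  classical
  unfold PP
  rw [mem_filter, mem_product, mem_product, mem_product, Fintype.mem_piFinset,
    Fintype.mem_piFinset, Fintype.mem_piFinset, Fintype.mem_piFinset]
  refine ⟨⟨⟨hy1, hy2⟩, ⟨hy1', hy2'⟩⟩, ?_⟩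
  rw [mem_EnS]
  refine ⟨?_, ?_, ?_⟩
  · intro j
    refine Fin.addCases (fun i => ?_) (fun i => ?_) j
    · simpa using hy1 i
    · change Fin.append y.1 y'.2 (Fin.natAdd s i) ∈ A
      rw [Fin.append_right]
      exact hy2' i
  · intro j
    refine Fin.addCases (fun i => ?_) (fun i => ?_) j
    · simpa using hy2 i
    · change Fin.append y.2 y'.1 (Fin.natAdd s i) ∈ A
      rw [Fin.append_right]
      exact hy1' i
  · have h1 := hR.mul r r _ _ h (hR.inv r _ h')
    rw [Fin.prod_univ_add, Fin.prod_univ_add]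
    simp only [Fin.append_left, Fin.append_right]
    convert h1 using 1
    rw [mul_inv_rev, mul_inv_rev, mul_inv_rev, inv_inv]
    generalize (∏ j, f (y.1 j)) = a
    generalize (∏ j, f (y.2 j)) = b
    generalize (∏ j, f (y'.1 j)) = c
    generalize (∏ j, f (y'.2 j)) = e
    calc a * e * (c⁻¹ * b⁻¹) = a * b⁻¹ * (e * c⁻¹) := by
          rw [mul_comm c⁻¹ b⁻¹, mul_mul_mul_comm]
      _ = a * b⁻¹ * u * (u⁻¹ * (e * c⁻¹)) := by
          rw [mul_assoc (a * b⁻¹), mul_inv_cancel_left]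

end Spl

open Spl in
/-- **SPL**: edges between `(y, y') ∈ A ^ s × A ^ s` and `(z, z') ∈ B ^ s × B ^ s`. -/
theorem spl_thm (hGRA : S_GRA) : S_SPL := by
  classical
  intro G _ R hR α β A B f g s r hr
  set e : ((Fin s → α × β) × (Fin s → α × β)) →
      ((Fin s → α) × (Fin s → α)) × ((Fin s → β) × (Fin s → β)) :=
    fun w => ((fun j => (w.1 j).1, fun j => (w.2 j).1), (fun j => (w.1 j).2, fun j => (w.2 j).2))
    with he
  have hinj : Function.Injective e := by
    intro w w' h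
    simp only [he, Prod.mk.injEq] at h
    refine Prod.ext (funext fun j => Prod.ext ?_ ?_) (funext fun j => Prod.ext ?_ ?_)
    · exact congrFun h.1.1 j
    · exact congrFun h.2.1 j
    · exact congrFun h.1.2 j
    · exact congrFun h.2.2 j
  have hcard : ((EnS R (A ×ˢ B) (fun w => f w.1 * g w.2) s r).image e).card =
      En R (A ×ˢ B) (fun w => f w.1 * g w.2) s r := card_image_of_injective _ hinj
  have hmem : ∀ y z, (y, z) ∈ (EnS R (A ×ˢ B) (fun w => f w.1 * g w.2) s r).image e →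
      (∀ j, y.1 j ∈ A) ∧ (∀ j, y.2 j ∈ A) ∧ (∀ j, z.1 j ∈ B) ∧ (∀ j, z.2 j ∈ B) ∧
      (∏ j, f (y.1 j)) * (∏ j, f (y.2 j))⁻¹ * ((∏ j, g (z.1 j)) * (∏ j, g (z.2 j))⁻¹) ∈ R r := by
    intro y z hyz
    rw [mem_image] at hyz
    obtain ⟨w, hw, hwe⟩ := hyz
    rw [mem_EnS] at hw
    obtain ⟨h1, h2, h3⟩ := hw
    simp only [he, Prod.mk.injEq] at hwe
    obtain ⟨rfl, rfl⟩ := hwe
    refine ⟨fun j => (mem_product.mp (h1 j)).1, fun j => (mem_product.mp (h2 j)).1,
      fun j => (mem_product.mp (h1 j)).2, fun j => (mem_product.mp (h2 j)).2, ?_⟩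
    simp only [prod_mul_distrib] at h3
    convert h3 using 1
    rw [mul_inv, mul_mul_mul_comm]
  rw [← hcard]
  refine (hGRA _ _ ((EnS R (A ×ˢ B) (fun w => f w.1 * g w.2) s r).image e) (PP R A f s r)
    (PP R B g s r) ?_ ?_).trans (Nat.mul_le_mul (PP_card R A f s r) (PP_card R B g s r))
  · intro y y' z h h'
    obtain ⟨a1, a2, -, -, a5⟩ := hmem y z h
    obtain ⟨b1, b2, -, -, b5⟩ := hmem y' z h'
    exact mem_PP hR a1 a2 b1 b2 _ a5 b5
  · intro y z z' h h'
    obtain ⟨-, -, a1, a2, a5⟩ := hmem y z h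
    obtain ⟨-, -, b1, b2, b5⟩ := hmem y z' h'
    rw [mul_comm] at a5 b5
    exact mem_PP hR a1 a2 b1 b2 _ a5 b5

end Pool.EXC
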