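import Pool.Agent.H46.EXC.StmtsY
import Pool.Agent.H42.LH.MIN
import Pool.Agent.H2.EXC.XAL

/-!
# EXC, module YAL: all heights
-/

set_option autoImplicit false

namespace Pool.EXC

open Finset Pool.Agent.H98.ABCR Pool.SHA Pool.ABY Pool.VIO

namespace YALP

/-- the smallest radical is at most the cube root -/
theorem smallY_third {v : ℕ × ℕ} {X : ℝ} (hX0 : 0 ≤ X) (hv : IsTri v) (hX : (RR v : ℝ) ≤ X) :
    SmallY (X ^ (1 / 3 : ℝ)) v := by
  by_contra hcon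
  unfold SmallY at hcon
  push Not at hcon
  have hR : (RR v : ℝ) = rad (coord v 0) * rad (coord v 1) * rad (coord v 2) := by
    rw [Pool.LH.min_RR hv]
    push_cast
    rfl
  have h0 := hcon 0
  have h1 := hcon 1
  have h2 := hcon 2
  have hY : 0 ≤ X ^ (1 / 3 : ℝ) := Real.rpow_nonneg hX0 _
  have h3 : (X ^ (1 / 3 : ℝ)) ^ 3 = X := by
    rw [← Real.rpow_natCast, ← Real.rpow_mul hX0]
    norm_num
  have h4 : X ^ (1 / 3 : ℝ) * X ^ (1 / 3 : ℝ) < rad (coord v 0) * rad (coord v 1) :=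
    mul_lt_mul'' h0 h1 hY hY
  have h5 : X ^ (1 / 3 : ℝ) * X ^ (1 / 3 : ℝ) * X ^ (1 / 3 : ℝ) <
      rad (coord v 0) * rad (coord v 1) * rad (coord v 2) :=
    mul_lt_mul'' h4 h2 (mul_nonneg hY hY) hY
  have h6 : X ^ (1 / 3 : ℝ) * X ^ (1 / 3 : ℝ) * X ^ (1 / 3 : ℝ) = (X ^ (1 / 3 : ℝ)) ^ 3 := by ring
  rw [h6, h3, ← hR] at h5
  linarith

/-- a coordinate of radical at most `Y` has greatest prime factor at most `Y` -/
theorem gp_le_of_smallY {v : ℕ × ℕ} {Y : ℝ} (h : SmallY Y v) :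
    ∃ i, (Pool.LH.gp (coord v i) : ℝ) ≤ Y := by
  obtain ⟨i, hi⟩ := h
  refine ⟨i, le_trans ?_ hi⟩
  exact_mod_cast Pool.LH.min_gp_le _

/-- `Y ≤ (X Y) ^ (1 / 4)` if `Y ^ 3 ≤ X` -/
theorem le_rt {X Y : ℝ} (hY : 1 ≤ Y) (h : Y ^ 3 ≤ X) : Y ≤ (X * Y) ^ (1 / 4 : ℝ) := by
  have hY0 : 0 ≤ Y := by linarith
  have h1 : Y = (Y ^ 4) ^ (1 / 4 : ℝ) := by
    rw [← Real.rpow_natCast, ← Real.rpow_mul hY0]
    norm_num
  calc Y = (Y ^ 4) ^ (1 / 4 : ℝ) := h1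
    _ ≤ (X * Y) ^ (1 / 4 : ℝ) := by
        refine Real.rpow_le_rpow (by positivity) ?_ (by norm_num)
        have : Y ^ 4 = Y ^ 3 * Y := by ring
        rw [this]
        exact mul_le_mul_of_nonneg_right h hY0

end YALP

open XALP YALP in
open Classical in
theorem yal_main (h1 : S_YDY) (h2 : Pool.LH.S_LCO) : ∀ ε : ℝ, 0 < ε → ε ≤ 1 →
    ∃ κ C : ℝ, 1 ≤ κ ∧ 1 ≤ C ∧ ∀ (X Y : ℝ) (F : Finset (ℕ × ℕ)), 1 ≤ X → 1 ≤ Y → Y ^ 3 ≤ X →
    (∀ v ∈ F, IsTri v ∧ (RR v : ℝ) ≤ X ∧ SmallY Y v ∧ κ * (1 + Real.log X) ≤ hh v) →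
    (F.card : ℝ) ≤ C * X ^ ε * (X * Y) ^ (1 / 4 : ℝ) := by
  intro ε hε hε1
  obtain ⟨κ0, C0, ε2, hκ, hC0, hε2, hD⟩ := h1 (ε / 2) (by linarith) (by linarith)
  have hδ : 0 < min ε2 (ε / 2) := lt_min hε2 (by linarith)
  obtain ⟨C1, hC1, hL⟩ := h2 (min ε2 (ε / 2)) hδ
  have hAA : 0 ≤ 4 * ε2 / ε := by positivity
  refine ⟨κ0, C1 + C0 * (4 * ε2 / ε + 1), hκ, by nlinarith, ?_⟩
  intro X Y F hX hY hYX hF
  have hX0 : 0 < X := by linarith
  have hY0 : 0 < Y := by linarith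
  obtain ⟨W, hW⟩ : ∃ W, W = (X * Y) ^ (1 / 4 : ℝ) := ⟨_, rfl⟩
  have hW0 : 0 < W := by
    rw [hW]
    positivity
  rw [← hW]
  set L : ℝ := Real.log X with hLd
  have hL0 : 0 ≤ L := Real.log_nonneg hX
  set N : ℕ := ⌊2 * (ε2 * L)⌋₊ + 1 with hN
  set a : ℝ := κ0 * (1 + L) with ha
  have ha1 : 1 ≤ a := by
    rw [ha]
    nlinarith
  have hXpos : ∀ s : ℝ, 0 < X ^ s := fun s => Real.rpow_pos_of_pos hX0 s
  have hsplit : F ⊆ F.filter (fun v => X ^ ε2 < hh v) ∪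
      (range N).biUnion (fun m => F.filter (fun v =>
        2 ^ m * a ≤ hh v ∧ hh v ≤ 2 * (2 ^ m * a) ∧ hh v ≤ X ^ ε2)) := by
    intro v hv
    obtain ⟨-, -, -, hlo⟩ := hF v hv
    rw [Finset.mem_union]
    by_cases hc : X ^ ε2 < hh v
    · left
      exact Finset.mem_filter.2 ⟨hv, hc⟩
    · right
      push Not at hc
      have hp : 0 < hh v := by linarith
      have hlog : Real.log (hh v) ≤ ε2 * L := by
        have := Real.log_le_log hp hc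
        rwa [Real.log_rpow hX0] at this
      obtain ⟨n, hn1, hn2, hn3⟩ := win a (hh v) (ε2 * L) ha1 hlo hlog
      rw [Finset.mem_biUnion]
      refine ⟨n, ?_, Finset.mem_filter.2 ⟨hv, hn1, hn2, hc⟩⟩
      rw [Finset.mem_range, hN, Nat.lt_succ_iff]
      exact Nat.le_floor hn3
  have hhi : ((F.filter (fun v => X ^ ε2 < hh v)).card : ℝ) ≤ C1 * X ^ ε * W := by
    have h4 := hL X Y (F.filter (fun v => X ^ ε2 < hh v)) hX hY
      (by
        intro v hv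
        rw [Finset.mem_filter] at hv
        obtain ⟨hv1, hv2⟩ := hv
        obtain ⟨ht, hR, hS, -⟩ := hF v hv1
        refine ⟨ht, hR, gp_le_of_smallY hS, ?_⟩
        calc (RR v : ℝ) ^ (min ε2 (ε / 2)) ≤ X ^ (min ε2 (ε / 2)) :=
              Real.rpow_le_rpow (Nat.cast_nonneg _) hR hδ.le
          _ ≤ X ^ ε2 := Real.rpow_le_rpow_of_exponent_le hX (min_le_left _ _)
          _ ≤ hh v := hv2.le)
    refine h4.trans ?_
    have h5 : Y ≤ W := by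
      rw [hW]
      exact le_rt hY hYX
    have h6 : X ^ (min ε2 (ε / 2)) ≤ X ^ ε := by
      apply Real.rpow_le_rpow_of_exponent_le hX
      have := min_le_right ε2 (ε / 2)
      linarith
    have h7 := hXpos (min ε2 (ε / 2))
    calc C1 * Y * X ^ (min ε2 (ε / 2)) ≤ C1 * W * X ^ ε := by gcongr
      _ = C1 * X ^ ε * W := by ring
  have hlo : ∀ m ∈ range N, ((F.filter (fun v =>
        2 ^ m * a ≤ hh v ∧ hh v ≤ 2 * (2 ^ m * a) ∧ hh v ≤ X ^ ε2)).card : ℝ) ≤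
        C0 * X ^ (ε / 2) * W := by
    intro m _
    set Fm := F.filter (fun v =>
        2 ^ m * a ≤ hh v ∧ hh v ≤ 2 * (2 ^ m * a) ∧ hh v ≤ X ^ ε2) with hFm
    rcases Fm.eq_empty_or_nonempty with he | ⟨w, hw⟩
    · rw [he, Finset.card_empty]
      have := hXpos (ε / 2)
      push_cast
      positivity
    · have hw' := hw
      rw [hFm, Finset.mem_filter] at hw'
      obtain ⟨-, hw1, -, hw3⟩ := hw'
      rw [hW]
      refine hD X Y (2 ^ m * a) Fm hX hY hYX ?_ (hw1.trans hw3) ?_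
      · have h5 : (1 : ℝ) ≤ 2 ^ m := one_le_pow₀ (by norm_num)
        nlinarith
      · intro v hv
        rw [hFm, Finset.mem_filter] at hv
        obtain ⟨hv0, hv1, hv2, -⟩ := hv
        obtain ⟨ht, hR, hS, -⟩ := hF v hv0
        exact ⟨ht, hR, hS, hv1, hv2⟩
  have hNle : (N : ℝ) ≤ (4 * ε2 / ε + 1) * X ^ (ε / 2) := by
    have h5 : (N : ℝ) ≤ 2 * (ε2 * L) + 1 := by
      rw [hN]
      push_cast
      have := Nat.floor_le (show 0 ≤ 2 * (ε2 * L) by positivity)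
      linarith
    have h6 : L ≤ X ^ (ε / 2) / (ε / 2) := Real.log_le_rpow_div hX0.le (by linarith)
    have h7 : 1 ≤ X ^ (ε / 2) := Real.one_le_rpow hX (by linarith)
    have h8 : 2 * (ε2 * L) ≤ 2 * (ε2 * (X ^ (ε / 2) / (ε / 2))) := by
      apply mul_le_mul_of_nonneg_left _ (by norm_num)
      exact mul_le_mul_of_nonneg_left h6 hε2.le
    have h9 : 2 * (ε2 * (X ^ (ε / 2) / (ε / 2))) = (4 * ε2 / ε) * X ^ (ε / 2) := by
      field_simp
      ring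
    linarith
  have hcard : (F.card : ℝ) ≤ ((F.filter (fun v => X ^ ε2 < hh v)).card : ℝ) +
      ∑ m ∈ range N, ((F.filter (fun v =>
        2 ^ m * a ≤ hh v ∧ hh v ≤ 2 * (2 ^ m * a) ∧ hh v ≤ X ^ ε2)).card : ℝ) := by
    have h5 := (Finset.card_le_card hsplit).trans (Finset.card_union_le _ _)
    have h6 := h5.trans (Nat.add_le_add_left (Finset.card_biUnion_le) _)
    exact_mod_cast h6
  refine hcard.trans ?_
  have hsum : ∑ m ∈ range N, ((F.filter (fun v =>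
        2 ^ m * a ≤ hh v ∧ hh v ≤ 2 * (2 ^ m * a) ∧ hh v ≤ X ^ ε2)).card : ℝ) ≤
      (C0 * (4 * ε2 / ε + 1)) * X ^ ε * W := by
    refine (Finset.sum_le_sum hlo).trans ?_
    rw [Finset.sum_const, Finset.card_range, nsmul_eq_mul]
    have h5 : X ^ ε = X ^ (ε / 2) * X ^ (ε / 2) := by
      rw [← Real.rpow_add hX0]
      congr 1
      ring
    rw [h5]
    have h6 := hXpos (ε / 2)
    calc (N : ℝ) * (C0 * X ^ (ε / 2) * W) ≤
        ((4 * ε2 / ε + 1) * X ^ (ε / 2)) * (C0 * X ^ (ε / 2) * W) :=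
          mul_le_mul_of_nonneg_right hNle (by positivity)
      _ = _ := by ring
  calc _ ≤ C1 * X ^ ε * W + (C0 * (4 * ε2 / ε + 1)) * X ^ ε * W :=
        add_le_add hhi hsum
    _ = _ := by ring

open YALP in
/-- **YAL**: all heights. -/
theorem yal_thm (h1 : S_YDY) (h2 : Pool.LH.S_LCO) : S_YAL := by
  intro ε hε hε1
  obtain ⟨κ, C, hκ, hC, h⟩ := yal_main h1 h2 ε hε hε1
  refine ⟨κ, C, hκ, hC, ?_⟩
  intro X Y F hX hY hF
  have hX0 : 0 < X := by linarith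
  rcases le_or_gt (Y ^ 3) X with hc | hc
  · exact h X Y F hX hY hc hF
  · have hY1 : 1 ≤ X ^ (1 / 3 : ℝ) := Real.one_le_rpow hX (by norm_num)
    have hY3 : (X ^ (1 / 3 : ℝ)) ^ 3 = X := by
      rw [← Real.rpow_natCast, ← Real.rpow_mul hX0.le]
      norm_num
    have hle : X ^ (1 / 3 : ℝ) ≤ Y := by
      by_contra hcon
      push Not at hcon
      have h2 : Y ^ 3 < (X ^ (1 / 3 : ℝ)) ^ 3 := pow_lt_pow_left₀ hcon (by linarith) (by norm_num)
      rw [hY3] at h2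
      linarith
    have h3 := h X (X ^ (1 / 3 : ℝ)) F hX hY1 hY3.le (fun v hv => by
      obtain ⟨ht, hR, -, hh⟩ := hF v hv
      exact ⟨ht, hR, smallY_third hX0.le ht hR, hh⟩)
    refine h3.trans ?_
    have hC0 : 0 ≤ C := by linarith
    have h4 : (X * X ^ (1 / 3 : ℝ)) ^ (1 / 4 : ℝ) ≤ (X * Y) ^ (1 / 4 : ℝ) := by
      refine Real.rpow_le_rpow (by positivity) ?_ (by norm_num)
      exact mul_le_mul_of_nonneg_left hle hX0.le
    exact mul_le_mul_of_nonneg_left h4 (by positivity)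

end Pool.EXC
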